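import Mathlib
import Pool.Agent.N718.DC.Stm
import Pool.Agent.W766.HB.Lsv
import Pool.Agent.W583.HB.Per

/-!
# DC/BIL: bilinear sums of Jacobi symbols over primes

Hölder's inequality, expansion of the fourth power and the large sieve.
-/

set_option autoImplicit false

namespace Pool.Agent.N545.DC

open Finset
open Pool.Agent.N718.DC (S_BIL)

lemma lsv : Pool.Agent.W313.HB.S_LSV :=
  Pool.Agent.W766.HB.Lsv.lsv_ Pool.Agent.W583.HB.per_

/-- the odd primes up to `X` -/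
abbrev PP (X : ℕ) : Finset ℕ := (Icc 3 X).filter Nat.Prime

lemma card_PP (X : ℕ) : ((PP X).card : ℝ) ≤ X := by
  have h1 : (PP X).card ≤ (Icc 3 X).card := card_filter_le _ _
  rw [Nat.card_Icc] at h1
  have h2 : (PP X).card ≤ X := by omega
  exact_mod_cast h2

/-- the fourth power of a sum -/
lemma four_le {ι : Type} (s : Finset ι) (f : ι → ℝ) :
    (∑ i ∈ s, f i) ^ 4 ≤ (s.card : ℝ) ^ 3 * ∑ i ∈ s, f i ^ 4 := by
  have h1 : (∑ i ∈ s, f i) ^ 2 ≤ s.card * ∑ i ∈ s, f i ^ 2 := sq_sum_le_card_mul_sum_sq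
  have h2 : (∑ i ∈ s, f i ^ 2) ^ 2 ≤ s.card * ∑ i ∈ s, (f i ^ 2) ^ 2 := sq_sum_le_card_mul_sum_sq
  have h3 : ∑ i ∈ s, (f i ^ 2) ^ 2 = ∑ i ∈ s, f i ^ 4 :=
    Finset.sum_congr rfl fun i _ => by ring
  rw [h3] at h2
  calc (∑ i ∈ s, f i) ^ 4 = ((∑ i ∈ s, f i) ^ 2) ^ 2 := by ring
    _ ≤ (s.card * ∑ i ∈ s, f i ^ 2) ^ 2 := pow_le_pow_left₀ (sq_nonneg _) h1 2
    _ = (s.card : ℝ) ^ 2 * (∑ i ∈ s, f i ^ 2) ^ 2 := by ring
    _ ≤ (s.card : ℝ) ^ 2 * (s.card * ∑ i ∈ s, f i ^ 4) :=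
        mul_le_mul_of_nonneg_left h2 (by positivity)
    _ = _ := by ring

/-- the sums over the primes of the symbols modulo `n` -/
noncomputable def gg (X n : ℕ) : ℝ := |∑ p ∈ PP X, (jacobiSym (p : ℤ) n : ℝ)|

/-- the mean square of the sums -/
lemma gg_sq (X : ℕ) (hX : 1 ≤ X) :
    ∑ n ∈ (Ioc 0 (X ^ 4)).filter (fun n => Odd n), gg X n ^ 2 ≤ 5 * (X : ℝ) ^ 5 := by
  classical
  have hX1 : (1 : ℝ) ≤ X := by exact_mod_cast hX
  have h1 := lsv ℕ (PP X) (fun _ => 1) (fun p => (p : ℤ)) 0 (X ^ 4) (Nat.zero_le _)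
  have h2 : ∑ n ∈ (Ioc 0 (X ^ 4)).filter (fun n => Odd n), gg X n ^ 2 =
      ∑ n ∈ (Ioc 0 (X ^ 4)).filter (fun n => Odd n),
        (∑ i ∈ PP X, (1 : ℝ) * (jacobiSym (i : ℤ) n : ℝ)) ^ 2 := by
    refine Finset.sum_congr rfl fun n _ => ?_
    unfold gg
    rw [sq_abs]
    simp only [one_mul]
  rw [h2]
  refine h1.trans ?_
  have h3 : ∑ x ∈ (PP X ×ˢ PP X).filter (fun x => IsSquare ((x.1 : ℤ) * (x.2 : ℤ))),
      |(1 : ℝ)| * |(1 : ℝ)| ≤ X := by
    have h4 : (PP X ×ˢ PP X).filter (fun x => IsSquare ((x.1 : ℤ) * (x.2 : ℤ))) ⊆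
        (PP X).image fun p => (p, p) := by
      rintro ⟨p, p'⟩ hx
      rw [Finset.mem_filter, Finset.mem_product, Finset.mem_filter, Finset.mem_filter] at hx
      obtain ⟨⟨⟨hp1, hp⟩, ⟨hp1', hp'⟩⟩, hsq⟩ := hx
      have hpp : p = p' := by
        by_contra hne
        have hsq' : IsSquare (p * p') := by
          obtain ⟨r, hr⟩ := hsq
          refine ⟨r.natAbs, ?_⟩
          have := congrArg Int.natAbs hr
          simpa [Int.natAbs_mul] using this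
        obtain ⟨r, hr⟩ := hsq'
        have hpr : p ∣ r := by
          have : p ∣ r * r := by rw [← hr]; exact dvd_mul_right _ _
          exact (hp.dvd_mul.1 this).elim id id
        have h5 : p * p ∣ p * p' := by rw [hr]; exact mul_dvd_mul hpr hpr
        have h6 : p ∣ p' := Nat.dvd_of_mul_dvd_mul_left hp.pos h5
        exact hne ((Nat.prime_dvd_prime_iff_eq hp hp').1 h6)
      rw [Finset.mem_image]
      exact ⟨p, Finset.mem_filter.2 ⟨hp1, hp⟩, by rw [hpp]⟩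
    simp only [abs_one, mul_one, Finset.sum_const, nsmul_eq_mul]
    refine le_trans ?_ (card_PP X)
    exact_mod_cast (Finset.card_le_card h4).trans Finset.card_image_le
  have h4 : ∑ i ∈ PP X, |(1 : ℝ)| * |(((i : ℤ) : ℝ))| ≤ X * X := by
    calc ∑ i ∈ PP X, |(1 : ℝ)| * |(((i : ℤ) : ℝ))| ≤ ∑ i ∈ PP X, (X : ℝ) := by
          refine Finset.sum_le_sum fun i hi => ?_
          rw [Finset.mem_filter, Finset.mem_Icc] at hi
          rw [abs_one, one_mul, Int.cast_natCast, abs_of_nonneg (Nat.cast_nonneg _)]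
          exact_mod_cast hi.1.2
      _ = (PP X).card * X := by rw [Finset.sum_const, nsmul_eq_mul]
      _ ≤ X * X := mul_le_mul_of_nonneg_right (card_PP X) (by linarith)
  have h40 : 0 ≤ ∑ i ∈ PP X, |(1 : ℝ)| * |(((i : ℤ) : ℝ))| :=
    Finset.sum_nonneg fun i _ => by positivity
  have h5 : (∑ i ∈ PP X, |(1 : ℝ)| * |(((i : ℤ) : ℝ))|) ^ 2 ≤ (X * X) ^ 2 :=
    pow_le_pow_left₀ h40 h4 2
  have h6 : (((X ^ 4 : ℕ) : ℝ) - ((0 : ℕ) : ℝ)) = (X : ℝ) ^ 4 := by push_cast; ring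
  rw [h6]
  have h7 : (X : ℝ) ^ 4 ≤ (X : ℝ) ^ 5 := pow_le_pow_right₀ hX1 (by norm_num)
  calc _ ≤ (X : ℝ) ^ 4 * X + 4 * (X * X) ^ 2 :=
        add_le_add (mul_le_mul_of_nonneg_left h3 (by positivity)) (by linarith)
    _ = (X : ℝ) ^ 5 + 4 * (X : ℝ) ^ 4 := by ring
    _ ≤ 5 * (X : ℝ) ^ 5 := by linarith

/-- the number of the quadruples of primes with a given product -/
lemma fib_card (X n : ℕ) :
    ((Fintype.piFinset fun _ : Fin 4 => PP X).filter fun L => ∏ i, L i = n).card ≤ 256 := by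
  classical
  rcases ((Fintype.piFinset fun _ : Fin 4 => PP X).filter
    fun L => ∏ i, L i = n).eq_empty_or_nonempty with h | ⟨L0, h0⟩
  · rw [h]; simp
  rw [Finset.mem_filter, Fintype.mem_piFinset] at h0
  have hsub : ((Fintype.piFinset fun _ : Fin 4 => PP X).filter fun L => ∏ i, L i = n) ⊆
      Fintype.piFinset fun _ : Fin 4 => Finset.univ.image L0 := by
    intro L hL
    rw [Finset.mem_filter, Fintype.mem_piFinset] at hL
    rw [Fintype.mem_piFinset]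
    intro i
    have h1 : L i ∣ ∏ j, L0 j := by
      rw [h0.2, ← hL.2]
      exact Finset.dvd_prod_of_mem _ (Finset.mem_univ i)
    have hp : (L i).Prime := (Finset.mem_filter.1 (hL.1 i)).2
    obtain ⟨j, -, hj⟩ := (Nat.Prime.prime hp).exists_mem_finset_dvd h1
    have hp' : (L0 j).Prime := (Finset.mem_filter.1 (h0.1 j)).2
    rw [(Nat.prime_dvd_prime_iff_eq hp hp').1 hj]
    exact Finset.mem_image_of_mem _ (Finset.mem_univ j)
  refine (Finset.card_le_card hsub).trans ?_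
  rw [Fintype.card_piFinset_const]
  have h2 : (Finset.univ.image L0).card ≤ 4 := by
    refine Finset.card_image_le.trans ?_
    simp
  calc (Finset.univ.image L0).card ^ 4 ≤ 4 ^ 4 := Nat.pow_le_pow_left h2 4
    _ = 256 := by norm_num

lemma jac_prod (p : ℕ) (L : Fin 4 → ℕ) (hL : ∀ i, L i ≠ 0) :
    jacobiSym (p : ℤ) (∏ i, L i) = ∏ i, jacobiSym (p : ℤ) (L i) := by
  rw [Fin.prod_univ_four, Fin.prod_univ_four]
  have h0 := hL 0
  have h1 := hL 1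
  have h2 := hL 2
  have h3 := hL 3
  rw [jacobiSym.mul_right' _ (mul_ne_zero (mul_ne_zero h0 h1) h2) h3,
    jacobiSym.mul_right' _ (mul_ne_zero h0 h1) h2, jacobiSym.mul_right' _ h0 h1]

/-- the fourth moment -/
lemma fourth (X : ℕ) (β : ℕ → ℝ) (hβ : ∀ n, |β n| ≤ 1) :
    ∑ p ∈ PP X, (∑ l ∈ PP X, β l * (jacobiSym (p : ℤ) l : ℝ)) ^ 4 ≤
      256 * ∑ n ∈ (Ioc 0 (X ^ 4)).filter (fun n => Odd n), gg X n := by
  classical
  set Q := Fintype.piFinset fun _ : Fin 4 => PP X with hQ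
  have hLne : ∀ L ∈ Q, ∀ i, L i ≠ 0 := by
    intro L hL i
    rw [hQ, Fintype.mem_piFinset] at hL
    exact (Finset.mem_filter.1 (hL i)).2.ne_zero
  have h1 : ∑ p ∈ PP X, (∑ l ∈ PP X, β l * (jacobiSym (p : ℤ) l : ℝ)) ^ 4 =
      ∑ L ∈ Q, (∏ i, β (L i)) * ∑ p ∈ PP X, (jacobiSym (p : ℤ) (∏ i, L i) : ℝ) := by
    have h2 : ∀ p ∈ PP X, (∑ l ∈ PP X, β l * (jacobiSym (p : ℤ) l : ℝ)) ^ 4 =
        ∑ L ∈ Q, (∏ i, β (L i)) * (jacobiSym (p : ℤ) (∏ i, L i) : ℝ) := by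
      intro p _
      rw [Finset.sum_pow']
      refine Finset.sum_congr rfl fun L hL => ?_
      rw [Finset.prod_mul_distrib, jac_prod p L (hLne L hL)]
      push_cast
      rfl
    rw [Finset.sum_congr rfl h2, Finset.sum_comm]
    refine Finset.sum_congr rfl fun L _ => ?_
    rw [Finset.mul_sum]
  have h3 : ∀ L ∈ Q, (∏ i, β (L i)) * ∑ p ∈ PP X, (jacobiSym (p : ℤ) (∏ i, L i) : ℝ) ≤
      gg X (∏ i, L i) := by
    intro L _
    refine (le_abs_self _).trans ?_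
    rw [abs_mul, Finset.abs_prod]
    unfold gg
    refine mul_le_of_le_one_left (abs_nonneg _) ?_
    exact Finset.prod_le_one (fun i _ => abs_nonneg _) fun i _ => hβ _
  have h4 : ∀ L ∈ Q, ∏ i, L i ∈ (Ioc 0 (X ^ 4)).filter (fun n => Odd n) := by
    intro L hL
    have hL' := hL
    rw [hQ, Fintype.mem_piFinset] at hL'
    rw [Finset.mem_filter, Finset.mem_Ioc]
    refine ⟨⟨Finset.prod_pos fun i _ => Nat.pos_of_ne_zero (hLne L hL i), ?_⟩, ?_⟩
    · calc ∏ i, L i ≤ ∏ _i : Fin 4, X := Finset.prod_le_prod' fun i _ =>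
            (Finset.mem_Icc.1 (Finset.mem_filter.1 (hL' i)).1).2
        _ = X ^ 4 := by simp
    · rw [Fin.prod_univ_four]
      have ho : ∀ i, Odd (L i) := by
        intro i
        obtain ⟨h5, h6⟩ := Finset.mem_filter.1 (hL' i)
        have h7 := (Finset.mem_Icc.1 h5).1
        exact h6.odd_of_ne_two (by omega)
      exact (((ho 0).mul (ho 1)).mul (ho 2)).mul (ho 3)
  rw [h1]
  calc _ ≤ ∑ L ∈ Q, gg X (∏ i, L i) := Finset.sum_le_sum h3
    _ = ∑ n ∈ (Ioc 0 (X ^ 4)).filter (fun n => Odd n),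
        ∑ L ∈ Q.filter (fun L => ∏ i, L i = n), gg X (∏ i, L i) :=
        (Finset.sum_fiberwise_of_maps_to h4 _).symm
    _ ≤ ∑ n ∈ (Ioc 0 (X ^ 4)).filter (fun n => Odd n), 256 * gg X n := by
        refine Finset.sum_le_sum fun n _ => ?_
        have h5 : ∑ L ∈ Q.filter (fun L => ∏ i, L i = n), gg X (∏ i, L i) =
            ∑ L ∈ Q.filter (fun L => ∏ i, L i = n), gg X n :=
          Finset.sum_congr rfl fun L hL => by rw [(Finset.mem_filter.1 hL).2]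
        rw [h5, Finset.sum_const, nsmul_eq_mul]
        refine mul_le_mul_of_nonneg_right ?_ (abs_nonneg _)
        exact_mod_cast fib_card X n
    _ = _ := by rw [Finset.mul_sum]

theorem bil_ : S_BIL := by
  refine ⟨5, by norm_num, fun X hX α β hα hβ => ?_⟩
  classical
  have hX1 : (1 : ℝ) ≤ X := by exact_mod_cast hX
  have hX0 : (0 : ℝ) < X := by linarith
  set T : ℝ := ∑ p ∈ PP X, |∑ l ∈ PP X, β l * (jacobiSym (p : ℤ) l : ℝ)| with hT
  have hT0 : 0 ≤ T := Finset.sum_nonneg fun p _ => abs_nonneg _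
  have h1 : |∑ p ∈ PP X, ∑ l ∈ PP X, α p * β l * (jacobiSym (p : ℤ) l : ℝ)| ≤ T := by
    refine (Finset.abs_sum_le_sum_abs _ _).trans ?_
    refine Finset.sum_le_sum fun p _ => ?_
    have h2 : ∑ l ∈ PP X, α p * β l * (jacobiSym (p : ℤ) l : ℝ) =
        α p * ∑ l ∈ PP X, β l * (jacobiSym (p : ℤ) l : ℝ) := by
      rw [Finset.mul_sum]
      exact Finset.sum_congr rfl fun l _ => by ring
    rw [h2, abs_mul]
    exact mul_le_of_le_one_left (abs_nonneg _) (hα p)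
  refine h1.trans ?_
  set N := (Ioc 0 (X ^ 4)).filter (fun n => Odd n) with hN
  set G : ℝ := ∑ n ∈ N, gg X n with hG
  have hG0 : 0 ≤ G := Finset.sum_nonneg fun n _ => abs_nonneg _
  have h2 : T ^ 4 ≤ (X : ℝ) ^ 3 * (256 * G) := by
    have h3 := four_le (PP X) fun p => |∑ l ∈ PP X, β l * (jacobiSym (p : ℤ) l : ℝ)|
    have h4 : ∑ p ∈ PP X, |∑ l ∈ PP X, β l * (jacobiSym (p : ℤ) l : ℝ)| ^ 4 =
        ∑ p ∈ PP X, (∑ l ∈ PP X, β l * (jacobiSym (p : ℤ) l : ℝ)) ^ 4 :=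
      Finset.sum_congr rfl fun p _ => by
        rw [show (4 : ℕ) = 2 * 2 from rfl, pow_mul, pow_mul, sq_abs]
    rw [h4] at h3
    refine h3.trans ?_
    have h5 := fourth X β hβ
    have h6 : ((PP X).card : ℝ) ^ 3 ≤ (X : ℝ) ^ 3 :=
      pow_le_pow_left₀ (Nat.cast_nonneg _) (card_PP X) 3
    exact mul_le_mul h6 h5 (Finset.sum_nonneg fun p _ => by positivity) (by positivity)
  have h3 : G ^ 2 ≤ 5 * (X : ℝ) ^ 9 := by
    have h4 : G ^ 2 ≤ (N.card : ℝ) * ∑ n ∈ N, gg X n ^ 2 := sq_sum_le_card_mul_sum_sq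
    have h5 : (N.card : ℝ) ≤ (X : ℝ) ^ 4 := by
      have h6 : N.card ≤ (Ioc 0 (X ^ 4)).card := Finset.card_filter_le _ _
      rw [Nat.card_Ioc, Nat.sub_zero] at h6
      exact_mod_cast h6
    have h6 := gg_sq X hX
    calc G ^ 2 ≤ (N.card : ℝ) * ∑ n ∈ N, gg X n ^ 2 := h4
      _ ≤ (X : ℝ) ^ 4 * (5 * (X : ℝ) ^ 5) :=
          mul_le_mul h5 h6 (Finset.sum_nonneg fun n _ => sq_nonneg _) (by positivity)
      _ = 5 * (X : ℝ) ^ 9 := by ring
  have h4 : T ^ 8 ≤ (5 * (X : ℝ) ^ (15 / 8 : ℝ)) ^ 8 := by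
    have h5 : (5 * (X : ℝ) ^ (15 / 8 : ℝ)) ^ 8 = 390625 * (X : ℝ) ^ 15 := by
      rw [mul_pow, ← Real.rpow_natCast ((X : ℝ) ^ (15 / 8 : ℝ)) 8, ← Real.rpow_mul hX0.le,
        ← Real.rpow_natCast (X : ℝ) 15]
      norm_num
    rw [h5]
    calc T ^ 8 = (T ^ 4) ^ 2 := by ring
      _ ≤ ((X : ℝ) ^ 3 * (256 * G)) ^ 2 := pow_le_pow_left₀ (by positivity) h2 2
      _ = 65536 * (X : ℝ) ^ 6 * G ^ 2 := by ring
      _ ≤ 65536 * (X : ℝ) ^ 6 * (5 * (X : ℝ) ^ 9) := mul_le_mul_of_nonneg_left h3 (by positivity)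
      _ = 327680 * (X : ℝ) ^ 15 := by ring
      _ ≤ 390625 * (X : ℝ) ^ 15 := mul_le_mul_of_nonneg_right (by norm_num) (by positivity)
  exact (pow_le_pow_iff_left₀ hT0 (by positivity) (by norm_num)).1 h4

end Pool.Agent.N545.DC
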